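import Pool.Agent.helper40.TW.SpecG
import Pool.Agent.helper13.LD.E1

set_option autoImplicit false

open Complex MeasureTheory Metric
open scoped ComplexConjugate ArithmeticFunction.vonMangoldt

namespace Pool.Agent.TWG

open Pool.Agent.helper6.LD (wt)
open Pool.Agent.helper85.BVP (ex)
open Pool.Agent.TW (Win Pw)

theorem ZFI : ZFI_stmt := by
  classical
  intro q χ hq hχ
  have hq0 : q ≠ 0 := by omega
  have : NeZero q := ⟨hq0⟩
  have hLL : LL χ = DirichletCharacter.LFunction χ := by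
    funext s
    unfold LL
    rw [dif_neg hq0]
  have hd : Differentiable ℂ (LL χ) := by
    rw [hLL]
    exact DirichletCharacter.differentiable_LFunction hχ
  have hne : ∀ s : ℂ, 1 ≤ s.re → LL χ s ≠ 0 := by
    intro s hs
    rw [hLL]
    exact DirichletCharacter.LFunction_ne_zero_of_one_le_re χ (Or.inl hχ) hs
  have hana : ∀ (c : ℂ) (R : ℝ), AnalyticOnNhd ℂ (LL χ) (closedBall c R) := fun c R z _ => hd.analyticAt z
  have h2 : LL χ 2 ≠ 0 := hne 2 (by norm_num)
  have hfin : ∀ S : Set ℂ, Bornology.IsBounded S → {ρ : ℂ | ρ ∈ S ∧ LL χ ρ = 0}.Finite := by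
    intro S hS
    obtain ⟨R, hR⟩ := hS.subset_closedBall 2
    have h3 := Pool.Agent.helper6.LD.h13_zeros_finite (c := 2) (R := max R 1) (R' := max R 1 + 1)
      (lt_of_lt_of_le one_pos (le_max_right _ _)) (lt_add_one _) (hana 2 _) h2
    exact h3.subset fun ρ hρ => ⟨closedBall_subset_closedBall (le_max_left _ _) (hR hρ.1), hρ.2⟩
  have hZS : ∀ S : Set ℂ, Bornology.IsBounded S → ∀ ρ : ℂ, ρ ∈ ZS χ S ↔ ρ ∈ S ∧ LL χ ρ = 0 := by
    intro S hS ρ
    unfold ZS
    rw [dif_pos (hfin S hS), Set.Finite.mem_toFinset]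
    exact Iff.rfl
  refine ⟨hd, hne, ?_, hZS, ?_, ?_, ?_⟩
  · intro s hs
    rw [hLL]
    exact DirichletCharacter.LFunction_eq_LSeries χ hs
  · intro ρ hρ
    refine ⟨?_, ?_⟩
    · have h3 : analyticOrderAt (LL χ) ρ ≠ ⊤ :=
        Pool.Agent.helper6.LD.h13_order_ne_top (c := 2) (R' := dist ρ 2 + 1) (by positivity) (hana 2 _) h2
          (by rw [mem_closedBall]; linarith)
      have h4 : analyticOrderAt (LL χ) ρ ≠ 0 := by
        rw [analyticOrderAt_ne_zero]
        exact ⟨hd.analyticAt ρ, hρ⟩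
      have h5 : analyticOrderNatAt (LL χ) ρ ≠ 0 := by
        intro h6
        apply h4
        rw [← Nat.cast_analyticOrderNatAt h3, h6]
        rfl
      unfold mz
      omega
    · by_contra hcon
      exact hne ρ (not_lt.1 hcon) hρ
  · intro S S' hSS hS'
    unfold nz
    refine Finset.sum_le_sum_of_subset_of_nonneg ?_ fun _ _ _ => Nat.cast_nonneg _
    intro ρ hρ
    rw [hZS S (hS'.subset hSS)] at hρ
    rw [hZS S' hS']
    exact ⟨hSS hρ.1, hρ.2⟩
  · intro S
    exact Finset.sum_nonneg fun _ _ => Nat.cast_nonneg _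

end Pool.Agent.TWG
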